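import Pool.Agent.Helper10.W3.M_Trq
import Pool.Agent.Helper38.CV.M_Far
import Pool.Agent.Helper7.W5.M_DimK
import Pool.Agent.Helper99.W5.M_Split
import Pool.Agent.Helper73.TH.M_PLAH
import Pool.Agent.Helper9.TH.M_EDGH
import Pool.Agent.Helper83.TH.M_BALH
import Pool.Agent.Helper42.TH.M_TYPH
import Pool.Agent.Helper53.TH.M_DIMKH
import Pool.Agent.Helper3.TH.M_DIMEH
import Pool.Agent.Helper75.TH.M_DIMOH
import Pool.Agent.Helper11.TH.M_E1AH
import Pool.Agent.Helper74.TH.M_E1BH
import Pool.Agent.Helper46.TH.M_O1H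
import Pool.Agent.Helper80.TH.M_UBH

/-!
# Project TH: the upper bound for the new symbols of level `2 * 5^n` with `W_2 = +1`, assembled
-/

set_option autoImplicit false

namespace Pool.Agent.Helper76.TH

open Pool.Agent.Helper93.TLH

/-- Values on translated paths. -/
theorem edgH : HEdg := Pool.Agent.Helper9.TH.hEdgH Pool.Agent.Helper73.TH.hPlAH

/-- The upper bound for the levels `2 * 5^n`. -/
theorem ubh5 : UBH 5 ddH5 := by
  have pla := Pool.Agent.Helper73.TH.hPlAH
  have typ := Pool.Agent.Helper42.TH.hTypH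
  have dimKH := Pool.Agent.Helper53.TH.hDimKH Pool.Agent.Helper10.W3.hTrq
  have dimK := Pool.Agent.Helper7.W5.hDimK Pool.Agent.Helper10.W3.hTrq
  have split := Pool.Agent.Helper99.W5.hSplit
  have far := Pool.Agent.Helper38.CV.hFar
  exact Pool.Agent.Helper80.TH.hUBH Pool.Agent.Helper83.TH.hBalH
    (Pool.Agent.Helper11.TH.hE1AH edgH pla typ)
    (Pool.Agent.Helper74.TH.hE1BH edgH pla far)
    (Pool.Agent.Helper46.TH.hO1H edgH pla typ far)
    (Pool.Agent.Helper3.TH.hDimEH typ dimKH dimK split)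
    (Pool.Agent.Helper75.TH.hDimOH typ dimKH split)

end Pool.Agent.Helper76.TH
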