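import Pool.Agent.Helper93.TLH.StB
import Pool.Agent.Helper14.W5.StC

/-!
# Project TH (level `2 * 5^n`, `W_2 = +1`): upper bound for new symbols

Everything is on the plane of W5 (`Helper14/W5/StC.lean`: `Pt`, `trp`, `ng`, `dR`, `anti5`, `inv5`, `Dv`, `Kl`, closed theorem SPLIT `Pool.Agent.Helper99.W5.hSplit`) with the larger group of the matrices `(a 5^μ b; 5c d)` of type `HTy` (determinant one and `c` even, or determinant two and `a, c, d` even). Standard matrices have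
an even lower left entry. RULE FOR REFLECTIONS. `val π = G(gu) - G(gv)` for the path `π` from `v` to `u`, `F_π(p)` the value at the coordinates `p` of `g`. `b = (0 1; 2 0)` (even exponents, `μ = 1`), `b = (0 1; 10 0)` (odd exponents, `μ = 0`): if `g` has coordinates `p = (x, y)`, then `b⁻¹ g b` has coordinates
`swH p = (y/2, 2x)`, `* g *` has `ng p`, `g M` has `trp μ a b c d p` for `M = (a 5^μ b; 5c d)` of type `HTy`. `G∘* ≈ G`, `G∘b ≈ -G`. So for `ρ = b M` (up to a scalar): the value of `G` at the path `g ρ π` is `-F_π(trp M (swH p))`; for `ρ = * M`: `F_π(trp M (ng p))`; for `ρ = b * M`: `-F_π(trp M (ng (swH p)))`.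
The relations of TYP and the dimensions `8`, `160` (odd, `m = 1, 2`), `30`, `750` (even, `m = 1, 2`) were checked by machine.
-/

set_option autoImplicit false

namespace Pool.Agent.Helper76.TH

open Pool.Agent.Helper14.CV (Homog EqC act StFar)
open Pool.Agent.Helper14.W5
open Pool.Agent.Helper93.TLH

/-- The matrix `(a, 5^μ b; 5 c, d)` is of type `HTy` and has plane coordinates `(x, y)`. -/
def PlH (μ : ℕ) {q q' : ℕ} (a b c d : ℤ) (x : ZMod q) (y : ZMod q') : Prop :=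
  HTy a (5 ^ μ * b) (5 * c) d ∧ (b : ZMod q) = x * a ∧ (c : ZMod q') = y * d

/-- The (even) entry `Y` of the standard matrix `(1, 5^μ X; 5 Y, 1 + 5^(μ+1) X Y)`, `X = x.val`. -/
noncomputable def rYH (μ : ℕ) {q q' : ℕ} (x : ZMod q) (y : ZMod q') : ℤ :=
  2 * ((y * (2 * (1 - 5 ^ (μ + 1) * ((x.val : ℕ) : ZMod q') * y))⁻¹).val : ℤ)

/-- The value of the symbol of `G` on the path from `g v` to `g u`, `g` the standard matrix with plane coordinates `(x, y)`. -/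
noncomputable def edgeH {R : Type} [AddCommGroup R] (μ : ℕ) {q q' : ℕ} (u1 u2 v1 v2 : ℤ)
    (G : ℤ → ℤ → R) (x : ZMod q) (y : ZMod q') : R :=
  G (u1 + 5 ^ μ * (x.val : ℤ) * u2) (5 * rYH μ x y * u1 + (1 + 5 ^ (μ + 1) * (x.val : ℤ) * rYH μ x y) * u2)
  - G (v1 + 5 ^ μ * (x.val : ℤ) * v2) (5 * rYH μ x y * v1 + (1 + 5 ^ (μ + 1) * (x.val : ℤ) * rYH μ x y) * v2)

/-- PLAH. The standard matrix is of type `HTy` (first case) and has the right coordinates. (`2 (1 - 5^(μ+1) X y)` is a unit of `ZMod (5^s)`; `Y = y (1 - 5^(μ+1) X y)⁻¹` in `ZMod (5^s)` satisfies `Y = y (1 + 5^(μ+1) X Y)`.) Model: `Pool/Agent/Helper63/W5/M_PlA.lean`. -/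
def HPlA : Prop := ∀ (μ r s : ℕ) (x : ZMod (5 ^ r)) (y : ZMod (5 ^ s)),
  PlH μ 1 (x.val : ℤ) (rYH μ x y) (1 + 5 ^ (μ + 1) * (x.val : ℤ) * rYH μ x y) x y

/-- The content of EDGH. -/
def HEdg : Prop := ∀ (R : Type) (_ : AddCommGroup R) (μ r s : ℕ) (G : ℤ → ℤ → R),
  SymH 5 (r + μ) (s + 1) G → ∀ (u1 u2 v1 v2 : ℤ), (u1 ≠ 0 ∨ u2 ≠ 0) → (v1 ≠ 0 ∨ v2 ≠ 0) →
  ∀ (x : ZMod (5 ^ r)) (y : ZMod (5 ^ s)) (a b c d : ℤ), PlH μ a b c d x y →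
  edgeH μ u1 u2 v1 v2 G x y = G (a * u1 + 5 ^ μ * b * u2) (5 * c * u1 + d * u2) -
    G (a * v1 + 5 ^ μ * b * v2) (5 * c * v1 + d * v2)

/-- EDGH (from PLAH). For `g' = (a 5^μ b; 5c d)` with the coordinates of the standard matrix `g = (1 5^μ X; 5Y 1+5^(μ+1)XY)` (determinant one, `Y` even): `g' = γ g`, `γ = g' adj(g) = (a(1 + 5^(μ+1)XY) - 5^(μ+1) b Y, 5^μ (b - a X); 5 (c (1 + 5^(μ+1)XY) - d Y), d - 5^(μ+1) c X)` is of type `HTy` (the same case as `g'`),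
`5^(r+μ)` divides the upper right and `5^(s+1)` the lower left entry; so `G∘γ ≈ G` gives the formula. Models: `Pool/Agent/Helper36/W5/M_Edg.lean`, `Pool/Agent/Helper10/W5/M_PlU.lean`. -/
def StHEdg : Prop := HPlA → HEdg

/-- Balanced new symbols, even exponent `n = 2k`. -/
def BalEH (k : ℕ) (G : ℤ → ℤ → ℂ) : Prop :=
  SymH 5 k k G ∧ EqC (∑ i ∈ Finset.range 5, act 1 (i * 5 ^ (k - 1)) 0 1 G) 0 ∧
    EqC (∑ i ∈ Finset.range 5, act 1 0 (2 * i * 5 ^ (k - 1)) 1 G) 0 ∧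
    EqC (act 0 (-1) 2 0 G) (-G) ∧ EqC (act (-1) 0 0 1 G) G

/-- Balanced new symbols, odd exponent `n = 2k+1`. -/
def BalOH (k : ℕ) (G : ℤ → ℤ → ℂ) : Prop :=
  SymH 5 k (k + 1) G ∧ EqC (∑ i ∈ Finset.range 5, act 1 (i * 5 ^ (k - 1)) 0 1 G) 0 ∧
    EqC (∑ i ∈ Finset.range 5, act 1 0 (2 * i * 5 ^ k) 1 G) 0 ∧
    EqC (act 0 (-1) 10 0 G) (-G) ∧ EqC (act (-1) 0 0 1 G) G

/-- BALH. Transport to the balanced form by `D = (1 0; 0 5^k)`: `(5 i; 0 5) D = 5 D (1 i5^(k-1); 0 1)`, `(1 0; 2i5^(n-1) 1) D = D (1 0; 2i5^(n-1-k) 1)`, `(0 -1; 2·5^n 0) D = 5^k D (0 -1; 2·5^(n-2k) 0)`; `act M (act M' G) = act (M' M) G`; for the first component `SymH.act` (`Helper93/TLH/Defs.lean`):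
`D (a b; c d) = (a b/5^k; 5^k c d) D`, which keeps the type `HTy`. Models: `Pool/Agent/Helper42/W5/M_Bal.lean`, `Pool/Agent/Helper36/TL/M_BALE.lean`. -/
def HBal : Prop := ∀ (k : ℕ) (G : ℤ → ℤ → ℂ), 1 ≤ k →
  (NewSymH 5 (2 * k) G → BalEH k (act 1 0 0 (5 ^ k) G)) ∧
  (NewSymH 5 (2 * k + 1) G → BalOH k (act 1 0 0 (5 ^ k) G)) ∧
  (Homog G → EqC (act 1 0 0 (5 ^ k) G) 0 → EqC G 0)

/-! ### Functions on the plane -/

/-- `(x, y) ↦ (y/2, 2x)`. -/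
def swH {m : ℕ} (p : Pt m) : Pt m := (p.2 * (2 : ZMod (5 ^ m))⁻¹, 2 * p.1)

/-- Odd exponent (`μ = 0`): the circle around `1/2`, matrix `(5 -2; 10 -5)`, `b (2 -1; 10 -4) = 2 (5 -2; 10 -5)`. -/
def cOH {m : ℕ} (p : Pt m) : Pt m := trp 0 2 (-1) 2 (-4) (swH p)

/-- Even exponent (`μ = 1`): the circle over `[1, 3/2]`, matrix `(5 -6; 4 -5)`, `b (4 -5; 10 -12) = 2 (5 -6; 4 -5)`. -/
def cAH {m : ℕ} (p : Pt m) : Pt m := trp 1 4 (-1) 2 (-12) (swH p)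

/-- Even exponent: the circle over `[2/3, 1]`, matrix `(5 -4; 6 -5)`, `b (6 -5; 10 -8) = 2 (5 -4; 6 -5)`. -/
def cBH {m : ℕ} (p : Pt m) : Pt m := trp 1 6 (-1) 2 (-8) (swH p)

/-- Even exponent: the circle over `[2, 3]`, matrix `(5 -12; 2 -5)`, `b (2 -5; 10 -24) = 2 (5 -12; 2 -5)`. -/
def cCH {m : ℕ} (p : Pt m) : Pt m := trp 1 2 (-1) 2 (-24) (swH p)

/-- Even exponent: the rotation of order two which exchanges `3/2` and `2`, matrix `(10 -17; 6 -10) = (0 -1; 2 0) (3 -5; -10 17)`. -/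
def dlH {m : ℕ} (p : Pt m) : Pt m := trp 1 3 (-1) (-2) 17 (ng (swH p))

/-- Type `0`: `(x, y) ↦ (φ x, φ' y)` with derivatives different from `0, 1`; type `1`: `(x, y) ↦ (ψ y, ψ' x)` with derivatives different from `0`. -/
def TyH {m : ℕ} (n : ℕ) (r : Pt m → Pt m) : Prop :=
  (n = 0 ∧ ∃ (s s' : ℤ) (φ φ' : ZMod (5 ^ m) → ZMod (5 ^ m)), ¬ (5 : ℤ) ∣ s ∧ ¬ (5 : ℤ) ∣ s' ∧
    ¬ (5 : ℤ) ∣ s - 1 ∧ ¬ (5 : ℤ) ∣ s' - 1 ∧ Dv s φ ∧ Dv s' φ' ∧ ∀ p, r p = (φ p.1, φ' p.2)) ∨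
  (n = 1 ∧ ∃ (s s' : ℤ) (ψ ψ' : ZMod (5 ^ m) → ZMod (5 ^ m)), ¬ (5 : ℤ) ∣ s ∧ ¬ (5 : ℤ) ∣ s' ∧
    Dv s ψ ∧ Dv s' ψ' ∧ ∀ p, r p = (ψ p.2, ψ' p.1))

/-- Two involutions of type `1` which generate a dihedral group of order eight, with the types of its elements. -/
def K8 {m : ℕ} (r r' : Pt m → Pt m) : Prop :=
  (∀ p, r (r p) = p) ∧ (∀ p, r' (r' p) = p) ∧ (∀ p, r (r' (r (r' p))) = r' (r (r' (r p)))) ∧
  TyH 1 r ∧ TyH 1 r' ∧ TyH 1 (fun p => r (r' (r p))) ∧ TyH 1 (fun p => r' (r (r' p))) ∧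
  TyH 0 (fun p => r (r' p)) ∧ TyH 0 (fun p => r' (r p)) ∧ TyH 0 (fun p => r (r' (r (r' p))))

/-- TYPH. The maps above and their types. Proof as `Pool/Agent/Helper71/W5/M_Typ.lean`: `trp μ M' (trp μ M p) = trp μ (M M') p`, `trp` does not change under scalars prime to `5`, `swH (trp μ a b c d p) = trp μ d (c/2) (2b) a (swH p)` (`c` even), `ng (trp μ a b c d p) = trp μ a (-b) (-c) d (ng p)`, `swH (swH p) = p`, `ng (swH p) = swH (ng p)`;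
so all relations are identities of matrices up to a scalar. With `M^s = (d, 5^μ c/2; 10 b, a)`: `(trp M ∘ swH)² = trp (M^s M)` (for instance `M = (2 -1; 10 -4)`: `M^s = (-4 1; -10 2)`, `M^s M = 2`). Rotations: `swH (cOH p) = trp 0 (-4) 1 (-2) 2 p`, `swH (cBH p) = trp 1 (-8) 1 (-2) 6 p`; `(-4 1; -10 2)² = (6 -2; 20 -6)`, `(-4 1; -10 2)⁴ = -4`.
Derivatives: `(b + d x)/(a + 5^(μ+1) c x)` has derivative `det/a²` modulo `5`, `(c + a y)/(d + 5^(μ+1) b y)` has derivative `det/d²`. -/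
def HTyp : Prop := ∀ m : ℕ,
  (Kl (ng : Pt m → Pt m) swH ∧ TyH 0 (ng : Pt m → Pt m) ∧ TyH 1 (swH : Pt m → Pt m) ∧ TyH 1 (fun p : Pt m => ng (swH p))) ∧
  (Kl (dR 0 : Pt m → Pt m) cOH ∧ TyH 0 (dR 0 : Pt m → Pt m) ∧ TyH 1 (cOH : Pt m → Pt m) ∧ TyH 1 (fun p : Pt m => dR 0 (cOH p))) ∧
  (Kl (dR 1 : Pt m → Pt m) cCH ∧ TyH 0 (dR 1 : Pt m → Pt m) ∧ TyH 1 (cCH : Pt m → Pt m) ∧ TyH 1 (fun p : Pt m => dR 1 (cCH p))) ∧
  ((∀ p : Pt m, cAH (cAH p) = p) ∧ TyH 1 (cAH : Pt m → Pt m)) ∧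
  ((∀ p : Pt m, dlH (dlH p) = p) ∧ TyH 1 (dlH : Pt m → Pt m)) ∧
  K8 (swH : Pt m → Pt m) cOH ∧ K8 (swH : Pt m → Pt m) cBH ∧
  (∀ p : Pt m, swH (cOH p) = trp 0 (-4) 1 (-2) 2 p) ∧ (∀ p : Pt m, swH (cBH p) = trp 1 (-8) 1 (-2) 6 p)

/-- DIMKH. Dimensions by fixed points. Model: `Pool/Agent/Helper7/W5/M_DimK.lean` (TRQ `Pool.Agent.Helper78.W3.S3Trq`, closed: `Pool.Agent.Helper10.W3.hTrq`), the same proof with general derivatives: the translates by `(i t, j t)`, `t = 5^(m-1)`, go to translates by `(s i t, s' j t)`, resp. `(s j t, s' i t)` (weights `w` depend only on `i = 0` or not,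
and `s, s'` are units modulo `5`). Fixed points of `p ↦ r (p + (i t, j t))`: type `0`: exactly one, as `x ↦ x - φ x` is injective (`1 - s` is a unit), total weight `(∑ w)² = 0`; type `1`, for an involution (`ψ' (ψ y) = y`): `5^m` if `j + s' i ≡ 0` modulo `5`, else none, total `5^m ∑_i w_i w_(-s' i) = 4·5^(m-1)`. First part (two commuting involutions) as
in W5; second part (one involution; `inv5 r r e e`): `P = (1 + e r)/2`; third part (dihedral group of order eight, trivial character): `P = (1/8) ∑`, the eight maps `p, r p, r' p, r r' r p, r' r r' p, r r' p, r' r p, r r' r r' p`. -/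
def HDimK : Prop := ∀ m : ℕ, 1 ≤ m →
  (∀ (r r' : Pt m → Pt m) (n n' n'' : ℕ) (e e' : ℤ), Kl r r' → TyH n r → TyH n' r' →
    TyH n'' (fun p => r (r' p)) → (e = 1 ∨ e = -1) → (e' = 1 ∨ e' = -1) →
    4 * (Module.finrank ℂ (inv5 r r' (e : ℂ) (e' : ℂ)) : ℤ) =
      16 * 25 ^ (m - 1) + (e * n + e' * n' + e * e' * n'') * (4 * 5 ^ (m - 1))) ∧
  (∀ (r : Pt m → Pt m) (e : ℤ), (∀ p, r (r p) = p) → TyH 1 r → (e = 1 ∨ e = -1) →
    (Module.finrank ℂ (inv5 r r (e : ℂ) (e : ℂ)) : ℤ) = 8 * 25 ^ (m - 1) + e * (2 * 5 ^ (m - 1))) ∧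
  (∀ (r r' : Pt m → Pt m), K8 r r' →
    Module.finrank ℂ (inv5 r r' 1 1) = 2 * 25 ^ (m - 1) + 2 * 5 ^ (m - 1))

/-- The target for even exponents: `(f, F1, M, D)`. -/
def subEH (m : ℕ) : Submodule ℂ ((Pt m → ℂ) × (Pt m → ℂ) × (Pt m → ℂ) × (Pt m → ℂ)) where
  carrier := {F | F.1 ∈ inv5 (m := m) ng swH 1 1 ∧ F.2.1 ∈ anti5 m ∧
    F.2.2.1 ∈ inv5 (m := m) cAH cAH (-1) (-1) ∧ F.2.2.2 ∈ inv5 (m := m) dlH dlH 1 1 ∧
    (∀ p : Pt m, (F.2.1 p + F.2.1 (swH p) - F.1 p) +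
      (F.2.1 (swH (cBH p)) + F.2.1 (swH (swH (cBH p))) - F.1 (swH (cBH p))) +
      (F.2.1 (swH (cBH (swH (cBH p)))) + F.2.1 (swH (swH (cBH (swH (cBH p))))) -
        F.1 (swH (cBH (swH (cBH p))))) +
      (F.2.1 (swH (cBH (swH (cBH (swH (cBH p)))))) +
        F.2.1 (swH (swH (cBH (swH (cBH (swH (cBH p))))))) -
        F.1 (swH (cBH (swH (cBH (swH (cBH p))))))) = 0) ∧
    (∀ p : Pt m, (F.2.1 p + F.2.2.1 p + F.2.2.2 p) +
      (F.2.1 (cCH p) + F.2.2.1 (cCH p) + F.2.2.2 (cCH p)) -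
      (F.2.1 (dR 1 p) + F.2.2.1 (dR 1 p) + F.2.2.2 (dR 1 p)) -
      (F.2.1 (dR 1 (cCH p)) + F.2.2.1 (dR 1 (cCH p)) + F.2.2.2 (dR 1 (cCH p))) = 0)}
  add_mem' := by
    rintro F F' ⟨h0, h1, h2, h3, h4, h5⟩ ⟨h0', h1', h2', h3', h4', h5'⟩
    refine ⟨Submodule.add_mem _ h0 h0', (anti5 m).add_mem h1 h1', Submodule.add_mem _ h2 h2',
      Submodule.add_mem _ h3 h3', fun p => ?_, fun p => ?_⟩
    · have a := h4 p
      have b := h4' p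
      simp only [Prod.fst_add, Prod.snd_add, Pi.add_apply]
      linear_combination a + b
    · have a := h5 p
      have b := h5' p
      simp only [Prod.fst_add, Prod.snd_add, Pi.add_apply]
      linear_combination a + b
  zero_mem' := ⟨Submodule.zero_mem _, (anti5 m).zero_mem, Submodule.zero_mem _,
    Submodule.zero_mem _, by intro p; simp, by intro p; simp⟩
  smul_mem' := by
    rintro c F ⟨h0, h1, h2, h3, h4, h5⟩
    refine ⟨Submodule.smul_mem _ c h0, (anti5 m).smul_mem c h1, Submodule.smul_mem _ c h2,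
      Submodule.smul_mem _ c h3, fun p => ?_, fun p => ?_⟩
    · have a := h4 p
      simp only [Prod.smul_fst, Prod.smul_snd, Pi.smul_apply, smul_eq_mul]
      linear_combination c * a
    · have a := h5 p
      simp only [Prod.smul_fst, Prod.smul_snd, Pi.smul_apply, smul_eq_mul]
      linear_combination c * a

/-- The target for odd exponents: `(f, l)`. -/
def subOH (m : ℕ) : Submodule ℂ ((Pt m → ℂ) × (Pt m → ℂ)) where
  carrier := {F | F.1 ∈ inv5 (m := m) ng swH 1 1 ∧ F.2 ∈ inv5 (m := m) (dR 0) cOH 1 1 ∧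
    ∀ p : Pt m, (F.1 p - F.2 p) + (F.1 (swH (cOH p)) - F.2 (swH (cOH p))) +
      (F.1 (swH (cOH (swH (cOH p)))) - F.2 (swH (cOH (swH (cOH p))))) +
      (F.1 (swH (cOH (swH (cOH (swH (cOH p)))))) - F.2 (swH (cOH (swH (cOH (swH (cOH p))))))) = 0}
  add_mem' := by
    rintro F F' ⟨h0, h1, h⟩ ⟨h0', h1', h'⟩
    refine ⟨Submodule.add_mem _ h0 h0', Submodule.add_mem _ h1 h1', fun p => ?_⟩
    have a1 := h p
    have b1 := h' p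
    simp only [Prod.fst_add, Prod.snd_add, Pi.add_apply]
    linear_combination a1 + b1
  zero_mem' := ⟨Submodule.zero_mem _, Submodule.zero_mem _, by intro p; simp⟩
  smul_mem' := by
    rintro c F ⟨h0, h1, h⟩
    refine ⟨Submodule.smul_mem _ c h0, Submodule.smul_mem _ c h1, fun p => ?_⟩
    have a1 := h p
    simp only [Prod.smul_fst, Prod.smul_snd, Pi.smul_apply, smul_eq_mul]
    linear_combination c * a1

/-- The content of DIMEH. -/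
def HDimE : Prop := ∀ m : ℕ, 1 ≤ m → Module.finrank ℂ (subEH m) = 30 * 25 ^ (m - 1)

/-- DIMEH (from TYPH, DIMKH, SPLIT). `a = 25^(m-1)`, `b = 5^(m-1)`. `V = anti5 m` has dimension `16 a` (first part of `S5DimK`), `Vf = inv5 ng swH 1 1` has `4a + 2b` (types `0, 1, 1`), `VM = inv5 cAH cAH (-1) (-1)` has `8a - 2b`, `VD = inv5 dlH dlH 1 1` has `8a + 2b`, `V8 = inv5 swH cBH 1 1` has `2a + 2b`, `V3 = inv5 (dR 1) cCH (-1) 1` has `4a` (types `0, 1, 1`).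
Let `R = swH∘cBH` (order four), `N F = F + F∘R + F∘R² + F∘R³`, `P3 F = F + F∘cCH - F∘dR 1 - F∘(dR 1)∘cCH`. For `F∘swH = F` the function `N F = (1/2) ∑_κ F∘κ` (`κ` in the group of order eight) lies in `V8`. The map `(f, F1, M, D) ↦ (N(F1 + F1∘swH - f), P3(F1 + M + D))` from `Vf × V × VM × VD` to `V8 × V3` is onto: given `(φ, ψ)` let (SPLIT, `μ = 1`)
`ψ/4 = f0 + l0`, `φ/8 = f1 + l1` with `f0, f1` invariant under `ng`, `l0, l1` invariant under `dR 1`; take `F1 = f0 + l1`, `f = (f0 + f0∘swH) - (f1 + f1∘swH)`, `M = D = 0`. Then `F1 + F1∘swH - f = φ' + φ'∘swH` with `φ' = f1 + l1 = φ/8`, and `N(φ' + φ'∘swH) = 8 φ' = φ`; `P3 l1 = P3 l0 = 0`, so `P3 F1 = P3 f0 = P3 (ψ/4) = ψ`. The kernel is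
`subEH m`: `(4a+2b) + 16a + (8a-2b) + (8a+2b) - (2a+2b) - 4a = 30a`. Model: `Pool/Agent/Helper86/W5/M_DimE.lean`. -/
def StHDimE : Prop := HTyp → HDimK → S5DimK → S5Split → HDimE

/-- The content of DIMOH. -/
def HDimO : Prop := ∀ m : ℕ, 1 ≤ m →
  Module.finrank ℂ (subOH m) = 6 * 25 ^ (m - 1) + 2 * 5 ^ (m - 1)

/-- DIMOH (from TYPH, DIMKH, SPLIT). `Vf = inv5 ng swH 1 1`, `Vl = inv5 (dR 0) cOH 1 1` have dimension `4a + 2b` (types `0, 1, 1`), `V8 = inv5 swH cOH 1 1` has `2a + 2b` (notation of DIMEH). With `R = swH∘cOH`, `N F = F + F∘R + F∘R² + F∘R³` the map `(f, l) ↦ N(f - l)` from `Vf × Vl` to `V8` (`N f = (1/2) ∑_κ f∘κ` as `f∘swH = f`, `N l = (1/2) ∑_κ l∘κ`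
as `l∘cOH = l`, `κ` in the group of order eight) is onto: for `φ` in `V8` let `f0 + l1 = φ` (SPLIT, `μ = 0`), `l0 = -l1`, `f = (f0 + f0∘swH)/2`, `l = (l0 + l0∘cOH)/2` (`ng` commutes with `swH`, `dR 0` with `cOH`); the image is `(1/2) ∑_κ (f0 - l0)∘κ = 4 φ`. Its kernel is `subOH m`. Model: `Pool/Agent/Helper29/W5/M_DimO.lean`. -/
def StHDimO : Prop := HTyp → HDimK → S5Split → HDimO

/-! ### Representatives -/

/-- Thirty representatives with bottom row `≡ (0, 1)` modulo `2` (of the classes of `SL₂(ℤ)` modulo `(* 5*; 10* *)`). -/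
def LH01 : List (ℤ × ℤ × ℤ × ℤ) :=
  [(-1, 1, 0, -1), (1, -1, 2, -1), (1, 0, 4, 1), (-1, -1, 0, -1), (-3, 1, 2, -1), (-1, -2, 2, 3), (3, -2, 2, -1),
   (-1, 1, 4, -5), (3, 4, 2, 3), (-3, -2, 2, 1), (-1, 0, 0, -1), (-1, 2, 2, -5), (5, 1, 4, 1), (-1, 1, 2, -3),
   (-1, 0, 2, -1), (5, -4, 4, -3), (-1, 2, 0, -1), (-5, -4, 4, 3), (-1, -2, 0, -1), (-5, 6, 4, -5), (1, 1, 2, 3),
   (-3, 4, 2, -3), (1, 0, 2, 1), (1, -2, 2, -3), (-1, -1, 2, 1), (-1, 0, 4, -1), (-5, 1, 4, -1), (3, 1, 2, 1),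
   (1, 2, 2, 5), (1, 1, 4, 5)]

/-- Thirty representatives with bottom row `≡ (1, 0)` modulo `2`. -/
def LH10 : List (ℤ × ℤ × ℤ × ℤ) :=
  [(-1, -5, 1, 4), (2, 1, 3, 2), (2, -1, 5, -2), (-4, 5, 3, -4), (0, -1, 1, 0), (-2, 3, 1, -2), (-2, 1, 3, -2),
   (1, 1, 1, 2), (1, -3, 1, -2), (1, -1, 1, 0), (-1, -1, 5, 4), (4, 5, 3, 4), (2, 3, 1, 2), (-1, 1, 1, -2),
   (-2, -1, 5, 2), (0, -1, 1, -4), (4, -3, 3, -2), (0, -1, 1, 2), (1, -5, 1, -4), (-6, -5, 5, 4), (-1, -1, 3, 2),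
   (-4, -3, 3, 2), (0, -1, 1, 4), (1, -1, 5, -4), (-1, -3, 1, 2), (1, -1, 3, -2), (0, -1, 1, -2), (2, -1, 1, 0),
   (-2, -1, 1, 0), (-1, -1, 1, 0)]

/-- Thirty representatives with bottom row `≡ (1, 1)` modulo `2`. -/
def LH11 : List (ℤ × ℤ × ℤ × ℤ) :=
  [(0, -1, 1, -5), (0, -1, 1, -1), (-1, -4, 1, 3), (0, -1, 1, 3), (1, -2, 3, -5), (0, -1, 1, -3), (2, 1, 5, 3),
   (2, 1, 1, 1), (-2, 1, 1, -1), (-2, -3, 1, 1), (-1, 0, 5, -1), (1, 0, 1, 1), (0, -1, 1, 1), (1, -4, 1, -3),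
   (-1, 0, 3, -1), (4, 1, 3, 1), (6, 1, 5, 1), (-4, 1, 3, -1), (-1, 0, 1, -1), (-1, -2, 3, 5), (1, 2, 1, 3),
   (-2, 1, 5, -3), (-3, 2, 1, -1), (1, -2, 1, -1), (-1, -6, 1, 5), (-6, 1, 5, -1), (-1, -2, 1, 1), (1, 0, 3, 1),
   (-2, -1, 3, 1), (1, -6, 1, -5)]

/-- The content of E1AH. -/
def HE1a : Prop := ∀ (k : ℕ) (G : ℤ → ℤ → ℂ), 2 ≤ k → BalEH k G →
  ((fun p : Pt (k - 1) => edgeH 1 1 0 0 1 G p.1 p.2), (fun p : Pt (k - 1) => edgeH 1 1 0 1 1 G p.1 p.2),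
    (fun p : Pt (k - 1) => edgeH 1 1 1 3 2 G p.1 p.2), (fun p : Pt (k - 1) => edgeH 1 3 2 2 1 G p.1 p.2)) ∈
    subEH (k - 1)

/-- E1AH (from EDGH, PLAH). Even exponent, `m = k - 1`, `μ = 1`: `f = {∞, 0}`, `F1 = {∞, 1}`, `M = {1, 3/2}`, `D = {3/2, 2}` (`{u, v} = G(gu) - G(gv)`, so `{u, v} + {v, w} = {u, w}`). (i) `anti5`: `(1 i5^(k-1); 0 1) g` has coordinates `(x + i 5^(k-2), y)`, `(1 0; 2i5^(k-1) 1) g` has `(x, y + 2i 5^(k-2))` for standard `g`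
(`i ↦ 2i` is a bijection modulo `5`). (ii) By the rule at the head of this file: `f(ng p) = f(p)`, `f(swH p) = -{0, ∞} = f(p)`; `M(cAH p) = -M(p)` (`(5 -6; 4 -5)` fixes `1`, `3/2`); `D(dlH p) = -{2, 3/2} = D(p)`. (iii) Square `1, 1/2, 2/3, 3/4`: `F1(swH p) = -{0, 1/2}`, so `F1 + F1∘swH - f = {1/2, 1} =: k`; `swH (cBH p) = trp 1 (-8) 1 (-2) 6 p` (matrix
`(-8 5; -10 6)` of type `HTy`, order four, `1 ↦ 3/4 ↦ 2/3 ↦ 1/2 ↦ 1`), so the four values of `k` are `{1/2, 1}`, `{1, 3/4}`, `{3/4, 2/3}`, `{2/3, 1/2}` with sum zero. (iv) Square `∞, 2, 5/2, 3`: `S = F1 + M + D = {∞, 2}`, `S(cCH p) = -{5/2, 2}`, `S(dR 1 p) = {∞, 3}`, `S(dR 1 (cCH p)) = -{5/2, 3}`.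
Model: `Pool/Agent/Helper34/W5/M_E1.lean` (lemmas `ed`, `shx`, `shy`, `swl`, `ngl`, `rm`, `ci`, ...; here there are no signs `eps`, but the matrices on the right may have determinant two, `G∘(0 -1; 2 0) ≈ -G`, `swH`). -/
def StHE1a : Prop := HEdg → HPlA → HTyp → HE1a

/-- The content of E1BH. -/
def HE1b : Prop := ∀ (k : ℕ) (G : ℤ → ℤ → ℂ), 2 ≤ k → BalEH k G →
  (∀ x y : ZMod (5 ^ (k - 1)), edgeH 1 1 0 0 1 G x y = 0 ∧ edgeH 1 1 0 1 1 G x y = 0 ∧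
    edgeH 1 1 1 3 2 G x y = 0 ∧ edgeH 1 3 2 2 1 G x y = 0) → EqC G 0

/-- E1BH (from EDGH, PLAH, FAR). Write `v ~ w` if `G(gv) = G(gw)` for all `g = (a 5b; 5c d)` of type `HTy` (equivalently, `edgeH 1 v w G = 0` on the plane). `~` is an equivalence relation, invariant under the matrices `(a 5b; 5c d)` of type `HTy` (a product of two matrices of determinant two is twice a matrix of determinant one), `* = (-1 0; 0 1)` and
`b = (0 1; 2 0)` (lemmas `Z`, `Z.tr`, `Z.sy`, `Z.neg`, `Z.st`, `Z.sw`, `Z.rm` of `Pool/Agent/Helper34/W5/M_E1.lean` and `Pool/Agent/Helper63/TL/M_E1E.lean`). Given: `∞ ~ 0`, `∞ ~ 1`, `1 ~ 3/2`, `3/2 ~ 2`. Then (apply the word, then the matrix): `0 ~ 1/2` (`∞ ~ 1` by `b`); `∞ ~ 4` (`∞ ~ 1` by `*`, then `(1 5; 0 1)`); `4 ~ 7/2` (`1 ~ 3/2` by `*`, `(1 5; 0 1)`);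
`7/2 ~ 3` (`3/2 ~ 2` by `*`, `(1 5; 0 1)`); `3/5 ~ 1/2` (`∞ ~ 1` by `(6 -5; 10 -8)`); `3/5 ~ 5/8` (`∞ ~ 0` by `(6 -5; 10 -8)`); `5/8 ~ 2/3` (`∞ ~ 1` by `b`, `(6 -5; 10 -8)`); `1/2 ~ 1/3` (`1 ~ 3/2` by `b`); `3/2 ~ 4/3` (`3/2 ~ 2` by `b`, `(12 -5; 10 -4)`); `1/3 ~ 1/4` (`3/2 ~ 2` by `b`); `1 ~ 5/4` (`∞ ~ 1` by `b`, `(12 -5; 10 -4)`);
`2/5 ~ 1/2` (`∞ ~ 1` by `(4 -5; 10 -12)`); `1/4 ~ 2/9` (`3/2 ~ 2` by `b`, `*`, `(16 5; 70 22)`); `2/9 ~ 3/14` (`1 ~ 3/2` by `(2 -5; 10 -24)`); `3/14 ~ 1/5` (`∞ ~ 1` by `(2 -5; 10 -24)`); `5/4 ~ 6/5` (`∞ ~ 0` by `b`, `(12 -5; 10 -4)`). With `*`: `∞`, `0`, `±1`, `±1/2`, `±2`, `±3`, `±3/2`, `±2/3`, `±1/3`, `±4/3`, `±1/4`, `±5/4`, `±2/5`, `±1/5`, `±6/5` are all equivalent, and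
every matrix of `SL₂(ℤ)` is `g' ρ`, `g' = (a 5b; 10c d)` of determinant one, `ρ` in `LH01 ++ LH10 ++ LH11` (check by `decide` on `ZMod 5` for each parity of the bottom row separately: `5 ∣ q r1 - p r2`, `5 ∣ r r4 - s r3`, bottom rows equal modulo `2`; lemmas `one`, `cls` of the models); both cusps of every `ρ` in the lists are among those above. FAR. -/
def StHE1b : Prop := HEdg → HPlA → StFar → HE1b

/-- The content of O1H. -/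
def HO1 : Prop := ∀ (k : ℕ) (G : ℤ → ℤ → ℂ), 1 ≤ k → BalOH k G →
  ((fun p : Pt k => edgeH 0 1 0 0 1 G p.1 p.2), (fun p : Pt k => edgeH 0 1 0 1 2 G p.1 p.2)) ∈ subOH k ∧
  ((∀ x y : ZMod (5 ^ k), edgeH 0 1 0 0 1 G x y = 0 ∧ edgeH 0 1 0 1 2 G x y = 0) → EqC G 0)

/-- O1H (from EDGH, PLAH, TYPH, FAR). Odd exponent, `m = k`, `μ = 0`, `b = (0 1; 10 0)`: `f = {∞, 0}`, `l = {∞, 1/2}`. `f(ng p) = f(p)`, `f(swH p) = f(p)`; `l(dR 0 p) = l(p)` (`(-1 1; 0 1)` fixes `1/2`), `l(cOH p) = -{1/2, ∞} = l(p)` (`(5 -2; 10 -5)` exchanges `∞` and `1/2`). `h = f - l = {1/2, 0}`; `swH (cOH p) = trp 0 (-4) 1 (-2) 2 p` (matrix `(-4 1; -10 2)`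
of type `HTy`, `0 ↦ 1/2 ↦ 1/3 ↦ 1/4 ↦ 0`): the four values of `h` are `{1/2, 0}`, `{1/3, 1/2}`, `{1/4, 1/3}`, `{0, 1/4}` with sum zero. Injectivity (`~` as in E1BH, for `g = (a b; 5c d)` of type `HTy`; invariant under these, `*`, `b`): `∞ ~ 0`, `∞ ~ 1/2`; `∞ ~ 1` (`∞ ~ 0` by `(1 1; 0 1)`); `1/2 ~ 2/5` (`∞ ~ 0` by `(4 -1; 10 -2)`);
`2/5 ~ 1/3` (`∞ ~ 1/2` by `(4 -1; 10 -2)`); `0 ~ 1/5` (`∞ ~ 1/2` by `b`); `1/5 ~ 1/4` (`∞ ~ 0` by `(2 -1; 10 -4)`); `1/2 ~ 3/5` (`2/5 ~ 1/2` by `*`, `(1 1; 0 1)`); with `*` also `-1, -1/2, -1/3, -1/4, -1/5`. Every matrix of `SL₂(ℤ)` is `g' ρ` with `g'` in `Γ₀(10)` and `ρ` one of the eighteen matrices `1`, `(0 -1; 1 d)` (`d = 0, ±1, ±2, ±3, ±4, 5`), `(1 0; ±2 1)`,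
`(1 0; ±4 1)`, `(1 0; 5 1)`, `(3 1; 5 2)`, `(1 2; 2 5)` (bottom rows modulo `10` up to units). FAR. Model: `Pool/Agent/Helper98/W5/M_O1.lean`. -/
def StHO1 : Prop := HEdg → HPlA → HTyp → StFar → HO1

/-- UBH. For `n = 2k ≥ 4` compose `G ↦` (balanced form) `↦ (f, F1, M, D)`, a linear map into `subEH (k-1)`, of dimension `30·25^(k-2) = ddH5 n`; for `n = 2k+1 ≥ 3` the map to `(f, l)` in `subOH k`, of dimension `ddH5 n`. Model: `Pool/Agent/Helper62/W5/M_UBof.lean`, `Pool/Agent/Helper77/TL/M_UBE.lean`. -/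
def StHUB : Prop := HBal → HE1a → HE1b → HO1 → HDimE → HDimO → UBH 5 ddH5

end Pool.Agent.Helper76.TH
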