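import Pool.Agent.Helper76.TL.Wo
import Pool.Agent.Helper93.TLH.Defs

/-!
# Project TH: transport of integral symbols of level `2 p^n`

The operators given by words (`WO`, `wo_*`) and the determinant lemma (`unit_det`) are those of `Helper76/TL/Wo.lean`.
-/

set_option autoImplicit false

namespace Pool.Agent.Helper76.TH.Wo

open Pool.Agent.Helper14.CV (Homog EqC act Tl)
open Pool.Agent.Helper28.WK (Tw evw)
open Pool.Agent.Helper4.TL (OkE)
open Pool.Agent.Helper79.TL (OkCE)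
open Pool.Agent.Helper93.TLH
open Pool.Agent.Helper79.S7 (evc)
open Pool.Agent.Helper76.TL.Wo (Gi)

private lemma ppos {p : ℕ} (hp : 0 < p) (r : ℕ) : ((p : ℤ) ^ r) ≠ 0 :=
  pow_ne_zero r (by exact_mod_cast hp.ne')

private lemma p_or {p : ℕ} (hp : 0 < p) (r : ℕ) {x y : ℤ} (h : x ≠ 0 ∨ y ≠ 0) :
    ((p : ℤ) ^ r * x ≠ 0 ∨ y ≠ 0) := by
  rcases h with h0 | h0
  · exact Or.inl (mul_ne_zero (ppos hp r) h0)
  · exact Or.inr h0

private lemma two_dvd {p : ℕ} (hp2 : ¬ 2 ∣ p) (r : ℕ) {z : ℤ} (h : (2 : ℤ) ∣ (p : ℤ) ^ r * z) :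
    (2 : ℤ) ∣ z := by
  rcases Int.prime_two.dvd_mul.1 h with h0 | h0
  · have h1 := Int.prime_two.dvd_of_dvd_pow h0
    exact absurd (by exact_mod_cast h1) hp2
  · exact h0

/-- The transported symbol has level `2 p^(r+s)`. -/
theorem sym_GiH {p : ℕ} (hp : 0 < p) (hp2 : ¬ 2 ∣ p) {r s : ℕ} {G : ℤ → ℤ → ℤ} (h : SymH p r s G) :
    SymH p 0 (r + s) (Gi p r G) := by
  refine ⟨?_, ?_⟩
  · intro k x y hk hxy
    have e := h.1 k ((p : ℤ) ^ r * x) y hk (p_or hp r hxy)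
    have e1 : (p : ℤ) ^ r * (k * x) = k * ((p : ℤ) ^ r * x) := by ring
    simp only [Gi]
    rw [e1, e]
  · intro a b c d hty _ hc
    obtain ⟨c', hc'⟩ := hc
    have hcd : (2 : ℤ) ∣ c → (2 : ℤ) ∣ (p : ℤ) ^ s * c' := by
      intro h2
      rw [hc'] at h2
      exact (two_dvd hp2 _ h2).mul_left _
    have hty' : HTy a ((p : ℤ) ^ r * b) ((p : ℤ) ^ s * c') d := by
      rcases hty with ⟨h1, h2⟩ | ⟨h1, h2, h3, h4⟩
      · exact Or.inl ⟨by rw [← h1, hc', pow_add]; ring, hcd h2⟩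
      · exact Or.inr ⟨by rw [← h1, hc', pow_add]; ring, h2, hcd h3, h4⟩
    obtain ⟨k, hk⟩ := h.2 a ((p : ℤ) ^ r * b) ((p : ℤ) ^ s * c') d hty' (Dvd.intro _ rfl)
      (Dvd.intro _ rfl)
    refine ⟨k, ?_⟩
    intro x y hxy
    have e := hk ((p : ℤ) ^ r * x) y (p_or hp r hxy)
    simp only [act, Gi] at e ⊢
    have e1 : (p : ℤ) ^ r * (a * x + b * y) = a * ((p : ℤ) ^ r * x) + (p : ℤ) ^ r * b * y := by ring
    have e2 : c * x + d * y = (p : ℤ) ^ s * c' * ((p : ℤ) ^ r * x) + d * y := by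
      rw [hc', pow_add]
      ring
    rw [e1, e2]
    exact e

private lemma Tl_Gi (p l r : ℕ) (G : ℤ → ℤ → ℤ) :
    Tl l 1 (Gi p r G) = Gi p r (Tl l ((p : ℤ) ^ r) G) := by
  funext x y
  simp only [Tl, Gi]
  congr 1
  · congr 1
    ring
  · refine Finset.sum_congr rfl ?_
    intro j _
    congr 1
    ring

private lemma homog_Tl {G : ℤ → ℤ → ℤ} (l : ℕ) (hl : 0 < l) (m : ℤ) (h : Homog G) :
    Homog (Tl l m G) := by
  intro k p q hk hpq
  have hl0 : (l : ℤ) ≠ 0 := by exact_mod_cast hl.ne'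
  simp only [Tl]
  congr 1
  · have e := h k (l * p) q hk (by
      rcases hpq with h0 | h0
      · exact Or.inl (mul_ne_zero hl0 h0)
      · exact Or.inr h0)
    rw [← e]
    congr 1
    ring
  · refine Finset.sum_congr rfl ?_
    intro j _
    have e := h k (p + m * j * q) (l * q) hk (by
      by_cases hq : q = 0
      · left
        rcases hpq with h0 | h0
        · rw [hq, mul_zero, add_zero]
          exact h0
        · exact absurd hq h0
      · exact Or.inr (mul_ne_zero hl0 hq))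
    rw [← e]
    congr 1
    · ring
    · ring

private lemma Tw_Gi (p : ℕ) (ls : List ℕ) (r : ℕ) (G : ℤ → ℤ → ℤ) :
    Tw 1 ls (Gi p r G) = Gi p r (Tw ((p : ℤ) ^ r) ls G) := by
  induction ls with
  | nil => rfl
  | cons l ls ih => rw [Tw, Tw, ih, Tl_Gi]

private lemma homog_Tw {p : ℕ} {G : ℤ → ℤ → ℤ} (h : Homog G) (m : ℤ) (ls : List ℕ) (hl : OkE p ls) :
    Homog (Tw m ls G) := by
  induction ls with
  | nil => exact h
  | cons l ls ih =>
    rw [Tw]
    exact homog_Tl l (hl l List.mem_cons_self).1.pos m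
      (ih fun l' hl' => hl l' (List.mem_cons_of_mem _ hl'))

private lemma evw_Gi {p : ℕ} (hp : 0 < p) (r : ℕ) {G : ℤ → ℤ → ℤ} (hG : Homog G) (ls : List ℕ)
    (hl : OkE p ls) : evw 1 ls (Gi p r G) = evw ((p : ℤ) ^ r) ls G := by
  unfold evw
  rw [Tw_Gi]
  have e := homog_Tw hG ((p : ℤ) ^ r) ls hl ((p : ℤ) ^ r) 1 0 (ppos hp r) (Or.inl one_ne_zero)
  rw [mul_zero] at e
  simp only [Gi]
  rw [mul_zero, e]

/-- Values of integer combinations of words. -/
theorem evc_GiH {p : ℕ} (hp : 0 < p) {r s : ℕ} {G : ℤ → ℤ → ℤ} (hG : SymH p r s G)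
    (C : List (ℤ × List ℕ)) (hC : OkCE p C) : evc 1 C (Gi p r G) = evc ((p : ℤ) ^ r) C G := by
  unfold evc
  congr 1
  refine List.map_congr_left fun c hc => ?_
  rw [evw_Gi hp r hG.1 c.2 (hC c hc)]

end Pool.Agent.Helper76.TH.Wo
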